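import Mathlib
import Pool.Agent.Q200.TetraSym

/-!
# A vertex-transitive, symmetric, irreducible polytope that is not combinatorially equivalent to
any spectral polytope

The polytope is the convex hull of the 24 vectors of weight 3 in `{-1,0,1}^4` that are not in the
tetracode. Polytopes, vertices, edge graphs, face lattices and combinatorial equivalence are
defined in `Pool.Agent.Q200.PolyFace`; `Aut` is defined in `Pool.Agent.Q200.TetraGeom`.
-/

namespace Pool.Agent.Results.MP_2354fb_co.NotSpectral

open Q200.Poly Q200.TetraCert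

/-- (i) The orthogonal symmetries of `P` act transitively on the vertices. -/
def VertexTransitive {d : ℕ} (P : Set (E d)) : Prop :=
  ∀ x ∈ vertices P, ∀ y ∈ vertices P, ∃ g ∈ Aut P, g x = y

/-- (ii) Every automorphism of the edge-graph is induced by an orthogonal symmetry of `P`. -/
def RealizesSymmetries {d : ℕ} (P : Set (E d)) : Prop :=
  ∀ φ : edgeGraph P ≃g edgeGraph P, ∃ g ∈ Aut P, ∀ x : vertices P, g x = φ x

/-- (iii) The only invariant subspaces are `0` and the whole space. -/
def Irreducible {d : ℕ} (P : Set (E d)) : Prop :=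
  ∀ W : Submodule ℝ (E d), (∀ g ∈ Aut P, ∀ w ∈ W, g w ∈ W) → W = ⊥ ∨ W = ⊤

open Classical in
/-- The adjacency matrix of `G` as a linear map on real functions. -/
noncomputable def adjOp {n : ℕ} (G : SimpleGraph (Fin n)) : Module.End ℝ (Fin n → ℝ) :=
  (G.adjMatrix ℝ).mulVecLin

/-- The columns of `Φ` form a basis of the eigenspace of the adjacency matrix of `G` for `θ`. -/
def IsEigenbasis {n e : ℕ} (G : SimpleGraph (Fin n)) (θ : ℝ) (Φ : Matrix (Fin n) (Fin e) ℝ) :
    Prop :=
  LinearIndependent ℝ (fun (j : Fin e) (i : Fin n) => Φ i j) ∧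
    Submodule.span ℝ (Set.range fun (j : Fin e) (i : Fin n) => Φ i j) =
      Module.End.eigenspace (adjOp G) θ

/-- `P` is spectral: for a labelling of the vertices by `1, ..., n` there are an eigenvalue `θ`
of the edge-graph, a matrix `Φ` whose columns form a basis of the eigenspace, and an invertible
linear map `T` that sends `P` onto the eigenpolytope (the convex hull of the rows of `Φ`) and
vertex `i` to the `i`-th row. -/
def IsSpectral {d : ℕ} (P : Set (E d)) : Prop :=
  ∃ (n : ℕ) (lab : Fin n ≃ vertices P) (θ : ℝ) (e : ℕ) (Φ : Matrix (Fin n) (Fin e) ℝ)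
    (T : E d ≃ₗ[ℝ] (Fin e → ℝ)),
    Module.End.HasEigenvalue (adjOp ((edgeGraph P).comap lab)) θ ∧
    IsEigenbasis ((edgeGraph P).comap lab) θ Φ ∧
    T '' P = convexHull ℝ (Set.range fun i => Φ i) ∧ ∀ i, T (lab i) = Φ i

open Classical in
/-- The sum of the values at the neighbours. -/
noncomputable def nbs {n : ℕ} (G : SimpleGraph (Fin n)) (u : Fin n → ℝ) (k : Fin n) : ℝ :=
  ∑ j, if G.Adj k j then u j else 0

theorem mem_eig {n : ℕ} (G : SimpleGraph (Fin n)) (θ : ℝ) (u : Fin n → ℝ) :
    u ∈ Module.End.eigenspace (adjOp G) θ ↔ ∀ k, nbs G u k = θ * u k := by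
  rw [Module.End.mem_eigenspace_iff]
  unfold adjOp
  rw [Matrix.mulVecLin_apply, funext_iff]
  refine forall_congr' fun k => ?_
  classical
  have h : nbs G u k = (G.adjMatrix ℝ).mulVec u k := by
    unfold nbs Matrix.mulVec dotProduct
    refine Finset.sum_congr rfl fun j _ => ?_
    simp only [SimpleGraph.adjMatrix_apply]
    split_ifs <;> simp
  rw [h]
  exact Iff.rfl

/-- No spectral polytope has the face lattice of `P`. -/
theorem not_equiv {d : ℕ} (Q : Set (E d)) (hQ : IsPolytope Q) (hS : IsSpectral Q) :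
    ¬ CombEquiv P Q := by
  classical
  rintro ⟨f⟩
  obtain ⟨n, labQ, θ, e, Φ, T, -, ⟨-, hspan⟩, hTQ, hT⟩ := hS
  -- `Q` is the hull of its vertices
  have hrange : (T : E d → (Fin e → ℝ)) '' vertices Q = Set.range fun i => Φ i := by
    ext y
    constructor
    · rintro ⟨x, hx, rfl⟩
      refine ⟨labQ.symm ⟨x, hx⟩, ?_⟩
      show Φ (labQ.symm ⟨x, hx⟩) = _
      rw [← hT, labQ.apply_symm_apply]
    · rintro ⟨i, rfl⟩
      exact ⟨labQ i, (labQ i).2, hT i⟩
  have hhull : Q = convexHull ℝ (vertices Q) := by
    apply T.injective.image_injective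
    have h1 : (T : E d → (Fin e → ℝ)) '' (convexHull ℝ (vertices Q))
        = convexHull ℝ (T '' vertices Q) := LinearMap.image_convexHull T.toLinearMap _
    rw [h1, hrange, hTQ]
  have hne : (vertices Q).Nonempty := by
    rw [Set.nonempty_iff_ne_empty]
    intro h0
    rw [h0, convexHull_empty] at hhull
    have h1 := hQ.full
    rw [hhull, AffineSubspace.span_empty] at h1
    exact AffineSubspace.bot_ne_top ℝ (E d) (E d) h1
  have hfin : Finite (vertices Q) := Finite.of_equiv _ labQ
  have hgood : Good Q := ⟨Set.toFinite _, hne, hhull⟩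
  obtain ⟨g, hg⟩ := graph_iso good hgood f
  let τ : Fin 24 ≃ Fin n := (lab.trans g).trans labQ.symm
  have hτ : ∀ i, labQ (τ i) = g (lab i) := fun i => labQ.apply_symm_apply _
  have hadj : ∀ i j, ((edgeGraph Q).comap labQ).Adj (τ i) (τ j) ↔ adjB i j = true := by
    intro i j
    rw [SimpleGraph.comap_adj, hτ, hτ, hg, adj_iff]
  -- eigenfunctions on the two sides
  have htrans : ∀ u : Fin n → ℝ, (∀ k, nbs ((edgeGraph Q).comap labQ) u k = θ * u k) ↔
      ∀ k, opR (fun i => u (τ i)) k = θ * u (τ k) := by
    intro u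
    have h1 : ∀ k, nbs ((edgeGraph Q).comap labQ) u (τ k) = opR (fun i => u (τ i)) k := by
      intro k
      unfold opR nbs
      rw [← Equiv.sum_comp τ]
      exact Finset.sum_congr rfl fun j _ => if_congr (hadj k j) rfl rfl
    constructor
    · intro h k
      rw [← h1, h]
    · intro h k
      obtain ⟨k, rfl⟩ := τ.surjective k
      rw [h1, h]
  -- functionals
  have hfun : ∀ u : Fin 24 → ℝ, (∀ k, opR u k = θ * u k) →
      ∃ c : Fin e → ℝ, ∀ i, ∑ j, c j * Φ (τ i) j = u i := by
    intro u hu
    have h1 : (fun i => u (τ.symm i)) ∈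
        Module.End.eigenspace (adjOp ((edgeGraph Q).comap labQ)) θ := by
      refine (mem_eig _ _ _).2 ((htrans _).2 ?_)
      intro k
      simpa using hu k
    rw [← hspan] at h1
    obtain ⟨c, hc⟩ := (Submodule.mem_span_range_iff_exists_fun ℝ).1 h1
    refine ⟨c, fun i => ?_⟩
    have h2 := congrFun hc (τ i)
    simp only [Finset.sum_apply, Pi.smul_apply, smul_eq_mul, Equiv.symm_apply_apply] at h2
    exact h2
  have hcol : ∀ c : Fin e, ∀ k, opR (fun i => Φ (τ i) c) k = θ * Φ (τ k) c := by
    intro c
    have h1 : (fun i => Φ i c) ∈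
        Module.End.eigenspace (adjOp ((edgeGraph Q).comap labQ)) θ := by
      rw [← hspan]; exact Submodule.subset_span ⟨c, rfl⟩
    exact (htrans _).1 ((mem_eig _ _ _).1 h1)
  have hWinj : ∀ i j, Φ (τ i) = Φ (τ j) → i = j := by
    intro i j h
    rw [← hT, ← hT] at h
    exact τ.injective (labQ.injective (Subtype.ext (T.injective h)))
  rcases key θ with h | ⟨u, i, j, hu, hij, hnon, heq, hlt⟩
  · have : Φ (τ 23) = Φ (τ 0) := by
      funext c
      exact h (fun i => Φ (τ i) c) (hcol c)
    exact absurd (hWinj _ _ this) (by decide)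
  · obtain ⟨c, hc⟩ := hfun u hu
    let l : StrongDual ℝ (Fin e → ℝ) :=
      ∑ j, c j • (ContinuousLinearMap.proj j : (Fin e → ℝ) →L[ℝ] ℝ)
    have hl : ∀ k, l (Φ (τ k)) = u k := by
      intro k
      rw [← hc k]
      simp [l]
    have hexp := exposed_of (fun k => Φ (τ k)) l {i, j} (u i) ⟨i, by simp⟩
      (by
        intro k hk
        rcases hk with hk | hk
        · rw [hk, hl]
        · rw [Set.mem_singleton_iff.1 hk, hl, heq])
      (by
        intro k hk
        simp only [Set.mem_insert_iff, Set.mem_singleton_iff, not_or] at hk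
        rw [hl]
        exact hlt k hk.1 hk.2)
    rw [Set.image_pair, convexHull_pair] at hexp
    have hr : Set.range (fun k => Φ (τ k)) = Set.range fun i => Φ i :=
      τ.surjective.range_comp (fun i => Φ i)
    have hseg : (T : E d → (Fin e → ℝ)) '' segment ℝ (labQ (τ i) : E d) (labQ (τ j) : E d)
        = segment ℝ (Φ (τ i)) (Φ (τ j)) := by
      rw [← convexHull_pair, ← convexHull_pair, ← hT, ← hT,
        ← Set.image_pair (T : E d → (Fin e → ℝ)) (labQ (τ i) : E d) (labQ (τ j) : E d)]
      exact LinearMap.image_convexHull T.toLinearMap _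
    rw [hr, ← hTQ, ← hseg, exposed_image_iff] at hexp
    have hA : (edgeGraph Q).Adj (labQ (τ i)) (labQ (τ j)) :=
      ⟨fun h => hij (τ.injective (labQ.injective h)), hexp⟩
    rw [hτ, hτ, hg, adj_iff, hnon] at hA
    exact absurd hA (by decide)

/-- **There is a polytope that is vertex-transitive, realizes all symmetries of its edge-graph
and has an irreducible symmetry group, but is not combinatorially equivalent to any spectral
polytope.** -/
theorem result : ∃ P : Set (E 4), IsPolytope P ∧ VertexTransitive P ∧ RealizesSymmetries P ∧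
    Irreducible P ∧
    ∀ (d : ℕ) (Q : Set (E d)), IsPolytope Q → IsSpectral Q → ¬ CombEquiv P Q :=
  ⟨P, isPolytope, fun x hx y hy => transitive x y hx hy, realizes, irreducible,
    fun _ Q hQ hS => not_equiv Q hQ hS⟩

end Pool.Agent.Results.MP_2354fb_co.NotSpectral
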